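import Pool.Agent.helper27.TD.Spec

set_option autoImplicit false

namespace Pool.Agent.helper27.TD

open Finset

theorem DTD_expand {ι S : Type} [Fintype ι] [DecidableEq ι] [Fintype S] [DecidableEq S]
    (A : Matrix ι S ℤ) (B : Matrix S ι ℤ) :
    (A * B).det = ∑ f : ι → S, (∏ i, A i (f i)) * (Matrix.of fun i j => B (f i) j).det := by
  have h1 : (A * B).det = Matrix.detRowAlternating (fun i => ∑ s, A i s • B s) := by
    show Matrix.det (A * B) = Matrix.det (fun i => ∑ s, A i s • B s)
    congr 1
    ext i j
    rw [Matrix.mul_apply, Finset.sum_apply]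
    rfl
  rw [h1]
  have h2 := (Matrix.detRowAlternating (n := ι) (R := ℤ)).toMultilinearMap.map_sum
    (fun (i : ι) (s : S) => A i s • B s)
  have h3 : (Matrix.detRowAlternating (n := ι) (R := ℤ)) (fun i => ∑ s, A i s • B s) =
      ∑ f : ι → S, (Matrix.detRowAlternating (n := ι) (R := ℤ)) (fun i => A i (f i) • B (f i)) := h2
  rw [h3]
  refine Finset.sum_congr rfl fun f _ => ?_
  have h4 := (Matrix.detRowAlternating (n := ι) (R := ℤ)).toMultilinearMap.map_smul_univ
    (fun i => A i (f i)) (fun i => B (f i))
  exact h4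

theorem DTD_row {ι : Type} [Fintype ι] [DecidableEq ι] (M : Matrix ι ι ℤ) (w : ι → ℤ)
    (h : ∀ i j, w i ∣ M i j) : ∏ i, w i ∣ M.det := by
  choose c hc using h
  have h1 : M = Matrix.of fun i j => w i * (Matrix.of c) i j := by
    ext i j
    exact hc i j
  rw [h1, Matrix.det_mul_column]
  exact dvd_mul_right _ _

theorem DTD : DTD_stmt := by
  intro ι S _ _ _ _ A B w N hw hN
  rw [DTD_expand]
  refine Finset.dvd_sum fun f _ => ?_
  by_cases hf : Function.Injective f
  · exact ((hN f hf).trans (DTD_row _ (fun i => w (f i)) fun i j => hw (f i) j)).mul_left _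
  · have h1 : ∃ i j, f i = f j ∧ i ≠ j := by
      unfold Function.Injective at hf
      push Not at hf
      exact hf
    obtain ⟨i, j, hij, hne⟩ := h1
    have h2 : (Matrix.of fun i j => B (f i) j).det = 0 := by
      apply Matrix.det_zero_of_row_eq hne
      ext l
      show B (f i) l = B (f j) l
      rw [hij]
    rw [h2, mul_zero]
    exact dvd_zero _

end Pool.Agent.helper27.TD
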