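import Pool.Agent.helper27.TD.Spec

set_option autoImplicit false

namespace Pool.Agent.helper27.TD

open Finset

theorem DTU_det {ι : Type} [Fintype ι] [DecidableEq ι] (A : Matrix ι ι ℝ) (a : ι → ℝ)
    (h : ∀ i s, |A i s| ≤ a s) : |A.det| ≤ ((Fintype.card ι).factorial : ℝ) * ∏ s, a s := by
  rw [Matrix.det_apply]
  refine (Finset.abs_sum_le_sum_abs _ _).trans ?_
  have h1 : ∀ σ ∈ (univ : Finset (Equiv.Perm ι)),
      |Equiv.Perm.sign σ • ∏ i, A (σ i) i| ≤ ∏ s, a s := by
    intro σ _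
    have h2 : |Equiv.Perm.sign σ • ∏ i, A (σ i) i| = |∏ i, A (σ i) i| := by
      rcases Int.units_eq_one_or (Equiv.Perm.sign σ) with h3 | h3 <;> rw [h3]
      · rw [one_smul]
      · rw [Units.neg_smul, one_smul, abs_neg]
    rw [h2, Finset.abs_prod]
    exact Finset.prod_le_prod (fun i _ => abs_nonneg _) fun i _ => h (σ i) i
  refine (Finset.sum_le_sum h1).trans ?_
  rw [Finset.sum_const, Finset.card_univ, Fintype.card_perm, nsmul_eq_mul]

theorem DTU : DTU_stmt := by
  intro ι _ _ A B a K hA hB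
  rw [Matrix.det_mul, abs_mul]
  have h1 := DTU_det A a hA
  have h2 := DTU_det B (fun _ => K) hB
  rw [Finset.prod_const, Finset.card_univ] at h2
  calc |A.det| * |B.det| ≤ (((Fintype.card ι).factorial : ℝ) * ∏ s, a s) *
        (((Fintype.card ι).factorial : ℝ) * K ^ Fintype.card ι) :=
        mul_le_mul h1 h2 (abs_nonneg _) ((abs_nonneg _).trans h1)
    _ = _ := by ring

end Pool.Agent.helper27.TD
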