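import Pool.Agent.helper27.TD.Spec

set_option autoImplicit false

namespace Pool.Agent.helper27.TD

open Pool.Agent.helper47.RA

theorem FSQ_mod {D : ℤ} (h : IsFund D) (h2 : D % 4 = 2 ∨ D % 4 = 3) : False := by
  rcases h with ⟨h, -, -⟩ | ⟨m, rfl, -, -⟩ <;> omega

theorem FSQ_sq_of_unit {a : ℤ} (h : IsUnit a) : a ^ 2 = 1 := by
  rcases Int.isUnit_iff.1 h with rfl | rfl <;> norm_num

theorem FSQ : FSQ_stmt := by
  intro D₁ D₂ h₁ h₂ a b ha hb hab
  obtain ⟨g, a', b', hg, hcop, rfl, rfl⟩ : ∃ g a' b' : ℤ, g ≠ 0 ∧ IsCoprime a' b' ∧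
      a = g * a' ∧ b = g * b' := by
    have hg0 : (Int.gcd a b : ℤ) ≠ 0 := by
      intro h
      rw [Int.natCast_eq_zero, Int.gcd_eq_zero_iff] at h
      exact ha h.1
    obtain ⟨a', ha'⟩ := Int.gcd_dvd_left a b
    obtain ⟨b', hb'⟩ := Int.gcd_dvd_right a b
    refine ⟨(Int.gcd a b : ℤ), a', b', hg0, ?_, ha', hb'⟩
    have h1 := Int.gcd_eq_gcd_ab a b
    refine ⟨Int.gcdA a b, Int.gcdB a b, ?_⟩
    apply mul_left_cancel₀ hg0
    calc (Int.gcd a b : ℤ) * (Int.gcdA a b * a' + Int.gcdB a b * b')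
        = ((Int.gcd a b : ℤ) * a') * Int.gcdA a b + ((Int.gcd a b : ℤ) * b') * Int.gcdB a b := by
          ring
      _ = a * Int.gcdA a b + b * Int.gcdB a b := by rw [← ha', ← hb']
      _ = (Int.gcd a b : ℤ) * 1 := by rw [← h1, mul_one]
  have hab' : D₁ * a' ^ 2 = D₂ * b' ^ 2 := by
    apply mul_left_cancel₀ (pow_ne_zero 2 hg)
    linear_combination hab
  have h3 : a' ^ 2 ∣ D₂ := by
    have h4 : a' ^ 2 ∣ D₂ * b' ^ 2 := ⟨D₁, by rw [← hab']; ring⟩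
    exact (hcop.pow (m := 2) (n := 2)).dvd_of_dvd_mul_right h4
  have h5 : b' ^ 2 ∣ D₁ := by
    have h4 : b' ^ 2 ∣ D₁ * a' ^ 2 := ⟨D₂, by rw [hab']; ring⟩
    exact (hcop.symm.pow (m := 2) (n := 2)).dvd_of_dvd_mul_right h4
  rcases h₂.sq_dvd h3 with hu | ⟨m, hm, hm4, ha2⟩
  · rcases h₁.sq_dvd h5 with hv | ⟨m, hm, hm4, hb2⟩
    · rw [FSQ_sq_of_unit hu, FSQ_sq_of_unit hv, mul_one, mul_one] at hab'
      exact hab'
    · exfalso
      have hb4 : b' ^ 2 = 4 := by rcases hb2 with rfl | rfl <;> norm_num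
      rw [FSQ_sq_of_unit hu, hb4, mul_one, hm] at hab'
      have hD : D₂ = m := by linarith
      exact FSQ_mod h₂ (by rw [hD]; exact hm4)
  · rcases h₁.sq_dvd h5 with hv | ⟨m', hm', -, hb2⟩
    · exfalso
      have ha4 : a' ^ 2 = 4 := by rcases ha2 with rfl | rfl <;> norm_num
      rw [FSQ_sq_of_unit hv, ha4, mul_one, hm] at hab'
      have hD : D₁ = m := by linarith
      exact FSQ_mod h₁ (by rw [hD]; exact hm4)
    · exfalso
      have h2a : (2 : ℤ) ∣ a' := by rcases ha2 with rfl | rfl <;> norm_num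
      have h2b : (2 : ℤ) ∣ b' := by rcases hb2 with rfl | rfl <;> norm_num
      have := hcop.isUnit_of_dvd' h2a h2b
      rw [Int.isUnit_iff] at this
      omega

end Pool.Agent.helper27.TD
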