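import Pool.Agent.helper27.TD.Spec

set_option autoImplicit false

namespace Pool.Agent.helper27.TD

open Pool.Agent.helper47.RA

theorem PRE_key {D x w M : ℤ} (hD : IsFund D) (hx : x ^ 2 = D * w ^ 2 + 4 * M)
    (hpr : ∀ h : ℕ, (h : ℤ) ^ 2 ∣ w ^ 2 → (h : ℤ) ∣ 2 * x → h ≤ 4) (q : ℕ) (hq : q.Prime)
    (h5 : 5 ≤ q) (hM : (q : ℤ) ^ 2 ∣ M) :
    ¬ (q : ℤ) ∣ D ∧ ¬ (q : ℤ) ∣ w ∧ IsCoprime w (q : ℤ) := by
  have hpq : Prime (q : ℤ) := Nat.prime_iff_prime_int.1 hq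
  have hqM : (q : ℤ) ∣ M := (dvd_pow_self _ two_ne_zero).trans hM
  have hxq : ((q : ℤ) ∣ D ∨ (q : ℤ) ∣ w) → (q : ℤ) ∣ x := by
    intro h
    apply hpq.dvd_of_dvd_pow (n := 2)
    rw [hx]
    refine dvd_add ?_ (hqM.mul_left _)
    rcases h with h | h
    · exact h.mul_right _
    · exact (dvd_pow h two_ne_zero).mul_left _
  have hnw : ¬ (q : ℤ) ∣ w := by
    intro h
    have h1 := hpr q (pow_dvd_pow_of_dvd h 2) ((hxq (Or.inr h)).mul_left 2)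
    omega
  have hcop : IsCoprime (q : ℤ) w := (hpq.coprime_iff_not_dvd).2 hnw
  refine ⟨fun h => ?_, hnw, hcop.symm⟩
  have h1 : (q : ℤ) ^ 2 ∣ D * w ^ 2 := by
    have h2 : D * w ^ 2 = x ^ 2 - 4 * M := by rw [hx]; ring
    rw [h2]
    exact dvd_sub (pow_dvd_pow_of_dvd (hxq (Or.inl h)) 2) (hM.mul_left 4)
  have h3 : (q : ℤ) ^ 2 ∣ D := (hcop.pow (m := 2) (n := 2)).dvd_of_dvd_mul_right h1
  rcases hD.sq_dvd h3 with h4 | ⟨m, _, _, h4⟩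
  · rw [Int.isUnit_iff] at h4
    omega
  · omega

theorem PRE : PRE_stmt := by
  intro q₁ q₂ d D hq₁ hq₂ hne h5₁ h5₂ hd hD hS
  obtain ⟨x, w, hw, hx, hb, hpr⟩ := hS
  have hA : (((q₁ * q₂) ^ (2 * d + 1) : ℕ) : ℤ) = ((q₁ : ℤ) * q₂) ^ (2 * d + 1) := by
    push_cast
    ring
  rw [hA] at hx hb
  set M : ℤ := ((q₁ : ℤ) * q₂) ^ (2 * d + 1) with hM
  have hM2 : ((q₁ : ℤ) * q₂) ^ 2 ∣ M := pow_dvd_pow _ (by omega)
  have hM₁ : (q₁ : ℤ) ^ 2 ∣ M := (pow_dvd_pow_of_dvd (dvd_mul_right _ _) 2).trans hM2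
  have hM₂ : (q₂ : ℤ) ^ 2 ∣ M := (pow_dvd_pow_of_dvd (dvd_mul_left _ _) 2).trans hM2
  obtain ⟨a1, a2, a3⟩ := PRE_key hD hx hpr q₁ hq₁ h5₁ hM₁
  obtain ⟨b1, b2, b3⟩ := PRE_key hD hx hpr q₂ hq₂ h5₂ hM₂
  have hodd : M % 2 = 1 := by
    have h1 : Odd (q₁ : ℤ) := by
      exact_mod_cast hq₁.odd_of_ne_two (by omega)
    have h2 : Odd (q₂ : ℤ) := by
      exact_mod_cast hq₂.odd_of_ne_two (by omega)
    exact Int.odd_iff.1 ((h1.mul h2).pow)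
  have hwM : IsCoprime w M := (a3.mul_right b3).pow_right
  -- the number `s`
  obtain ⟨s, t, hst, hsD⟩ : ∃ s t : ℤ, x + w * s = M * t ∧ (s - D) % 2 = 0 := by
    obtain ⟨u, v, huv⟩ := hwM
    have h1 : x + w * (-(x * u)) = M * (x * v) := by linear_combination (-x) * huv
    by_cases hp : (-(x * u) - D) % 2 = 0
    · exact ⟨-(x * u), x * v, h1, hp⟩
    · refine ⟨-(x * u) + M, x * v + w, by linear_combination h1, ?_⟩
      omega
  have hD4 : (D % 4 = 0 ∨ D % 4 = 1) := by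
    rcases hD with ⟨h, -, -⟩ | ⟨m, rfl, -, -⟩
    · exact Or.inr h
    · left
      omega
  have h4 : (4 : ℤ) ∣ s ^ 2 - D := by
    obtain ⟨e, he⟩ : ∃ e, s = D + 2 * e := ⟨(s - D) / 2, by omega⟩
    obtain ⟨D', hD'⟩ : ∃ D', D = 4 * D' ∨ D = 4 * D' + 1 := ⟨D / 4, by omega⟩
    rcases hD' with hD' | hD'
    · rw [he, hD']
      exact ⟨4 * D' ^ 2 + 4 * D' * e + e ^ 2 - D', by ring⟩
    · rw [he, hD']
      exact ⟨4 * D' ^ 2 + 2 * D' + 4 * D' * e + e + e ^ 2 - D', by ring⟩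
  have hMs : M ∣ s ^ 2 - D := by
    have h5 : M ∣ w ^ 2 * (s ^ 2 - D) :=
      ⟨M * t ^ 2 - 2 * t * x + 4, by
        have h6 : w * s = M * t - x := by linear_combination hst
        calc w ^ 2 * (s ^ 2 - D) = (w * s) ^ 2 - D * w ^ 2 := by ring
          _ = (M * t - x) ^ 2 - D * w ^ 2 := by rw [h6]
          _ = M * (M * t ^ 2 - 2 * t * x + 4) := by linear_combination hx⟩
    exact (hwM.symm.pow_right (n := 2)).dvd_of_dvd_mul_left h5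
  have hcop4 : IsCoprime (4 : ℤ) M := by
    have h6 : IsCoprime (2 : ℤ) M := by
      refine ⟨-(M / 2), 1, ?_⟩
      omega
    have h7 := h6.pow_left (m := 2)
    norm_num at h7
    exact h7
  obtain ⟨δ, hδ⟩ := hcop4.mul_dvd h4 hMs
  -- `t` is even
  have hte : t % 2 = 0 := by
    have e1 : (x + w * s) % 2 = 0 := by
      have e2 : (2 : ℤ) ∣ x ^ 2 - D * w ^ 2 := ⟨2 * M, by rw [hx]; ring⟩
      have e3 : (2 : ℤ) ∣ (x + w * s) ^ 2 := by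
        obtain ⟨c, hc⟩ := e2
        obtain ⟨e, he⟩ := h4
        exact ⟨c + x * w * s + 2 * e * w ^ 2 + D * w ^ 2, by
          linear_combination hc + w ^ 2 * he⟩
      have e4 : (2 : ℤ) ∣ x + w * s := Int.prime_two.dvd_of_dvd_pow e3
      omega
    rw [hst] at e1
    have e5 : (2 : ℤ) ∣ M * t := Int.dvd_of_emod_eq_zero e1
    rcases Int.prime_two.dvd_or_dvd e5 with e6 | e6
    · omega
    · omega
  obtain ⟨ξ, hξ⟩ : ∃ ξ, t = 2 * ξ := ⟨t / 2, by omega⟩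
  refine ⟨x, w, s, ξ, δ, hw, hx, hb, hpr, ?_, ?_, a1, b1, a2, b2⟩
  · rw [hξ] at hst
    linear_combination hst
  · linear_combination -hδ

end Pool.Agent.helper27.TD
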