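import Pool.Agent.helper27.TD.Spec

set_option autoImplicit false

namespace Pool.Agent.helper27.TD

open Finset

theorem WT : WT_stmt := by
  intro b d j T f hf
  have h1 : ∑ i, (T - (d * (f i).1.1 + j * (f i).1.2)) ≤
      ∑ s ∈ mons b, (T - (d * s.1 + j * s.2)) := by
    rw [← Finset.sum_coe_sort (mons b) (fun s : ℕ × ℕ => T - (d * s.1 + j * s.2))]
    have h2 := Finset.sum_map univ (⟨f, hf⟩ : Ix b ↪ {s : ℕ × ℕ // s ∈ mons b})
      (fun s : {s : ℕ × ℕ // s ∈ mons b} => T - (d * s.1.1 + j * s.1.2))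
    have h3 : ∑ i, (T - (d * (f i).1.1 + j * (f i).1.2)) =
        ∑ s ∈ univ.map (⟨f, hf⟩ : Ix b ↪ {s : ℕ × ℕ // s ∈ mons b}),
          (T - (d * s.1.1 + j * s.1.2)) := h2.symm
    rw [h3]
    exact Finset.sum_le_sum_of_subset (Finset.subset_univ _)
  have h4 : 2 * (b + 1) * T ≤ ∑ i, (d * (f i).1.1 + j * (f i).1.2) +
      ∑ i, (T - (d * (f i).1.1 + j * (f i).1.2)) := by
    rw [← Finset.sum_add_distrib]
    have h5 : ∑ _i : Ix b, T = 2 * (b + 1) * T := by
      rw [Finset.sum_const, Finset.card_univ, Fintype.card_prod, Fintype.card_fin,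
        Fintype.card_fin, smul_eq_mul]
    rw [← h5]
    refine Finset.sum_le_sum fun i _ => ?_
    omega
  unfold sig
  omega

end Pool.Agent.helper27.TD
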